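import Mathlib
import Pool.Agent.X203.BaireAffE
import Pool.Agent.Results.MP_04557e_an.AffineBaireOneAP

/-!
If `E` has the bounded approximation property (or only the approximation property), then every
affine map `X → B_E` of the first Baire class is a pointwise limit of continuous affine maps with
values in the closed unit ball `B_E` itself.
-/

namespace Pool.Agent.Results.MP_8da836_an.UnitBallValued

open Filter Topology
open Pool.Agent.Results.MP_04557e_an.AffineBaireOneAP (IsAffine HasAP)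

/-- `C₁(X, L)`: maps `X → L` that are pointwise norm limits of continuous maps `X → L`. -/
def C1 {X E : Type*} [TopologicalSpace X] [NormedAddCommGroup E] (L : Set E) (f : X → E) : Prop :=
  (∀ x, f x ∈ L) ∧ ∃ φ : ℕ → X → E, (∀ n, Continuous (φ n)) ∧ (∀ n x, φ n x ∈ L) ∧
    ∀ x, Tendsto (fun n => φ n x) atTop (𝓝 (f x))

/-- `A₁(X, L)`: maps `X → L` that are pointwise norm limits of continuous affine maps `X → L`. -/
def A1 (𝕜 : Type*) [RCLike 𝕜] {V : Type*} [AddCommGroup V] [Module ℝ V] [TopologicalSpace V]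
    (X : Set V) {E : Type*} [NormedAddCommGroup E] [NormedSpace 𝕜 E] (L : Set E) (f : X → E) :
    Prop :=
  (∀ x, f x ∈ L) ∧ ∃ φ : ℕ → X → E, (∀ n, Continuous (φ n)) ∧ (∀ n, IsAffine 𝕜 X (φ n)) ∧
    (∀ n x, φ n x ∈ L) ∧ ∀ x, Tendsto (fun n => φ n x) atTop (𝓝 (f x))

/-- The bounded approximation property. -/
def HasBAP (𝕜 : Type*) [RCLike 𝕜] (E : Type*) [NormedAddCommGroup E] [NormedSpace 𝕜 E] : Prop :=
  ∃ lam : ℝ, 1 ≤ lam ∧ ∀ K : Set E, IsCompact K → ∀ ε : ℝ, 0 < ε → ∃ T : E →L[𝕜] E,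
    FiniteDimensional 𝕜 (LinearMap.range (T : E →ₗ[𝕜] E)) ∧ ‖T‖ ≤ lam ∧ ∀ x ∈ K, ‖T x - x‖ < ε

theorem HasBAP.hasAP {𝕜 : Type*} [RCLike 𝕜] {E : Type*} [NormedAddCommGroup E] [NormedSpace 𝕜 E]
    (h : HasBAP 𝕜 E) : HasAP 𝕜 E := by
  obtain ⟨lam, _, h⟩ := h
  intro K hK ε hε
  obtain ⟨T, h1, _, h3⟩ := h K hK ε hε
  exact ⟨T, h1, h3⟩

/-- Let `E` have the bounded approximation property, or just the approximation property. Then for
every compact convex set `X`, every affine `f ∈ C₁(X, B_E)` belongs to `A₁(X, B_E)`. -/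
theorem result (𝕜 : Type*) [RCLike 𝕜] {V : Type*} [AddCommGroup V] [Module ℝ V]
    [TopologicalSpace V] [IsTopologicalAddGroup V] [ContinuousSMul ℝ V] [LocallyConvexSpace ℝ V]
    [T2Space V] (X : Set V) (hc : IsCompact X) (hconv : Convex ℝ X)
    (E : Type*) [NormedAddCommGroup E] [NormedSpace 𝕜 E] (hAP : HasBAP 𝕜 E ∨ HasAP 𝕜 E)
    (f : X → E) (haff : IsAffine 𝕜 X f) (hf : C1 (Metric.closedBall (0 : E) 1) f) :
    A1 𝕜 X (Metric.closedBall (0 : E) 1) f := by
  have hAP' : HasAP 𝕜 E := hAP.elim HasBAP.hasAP id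
  obtain ⟨hf1, φ, hφc, _, hlim⟩ := hf
  obtain ⟨a, h1, h2, h3, h4⟩ :=
    (Pool.Agent.Results.MP_04557e_an.AffineBaireOneAP.result 𝕜 X hc hconv E hAP' f haff
      ⟨φ, hφc, hlim⟩).2 1 one_pos (fun x => mem_closedBall_zero_iff.mp (hf1 x))
  exact ⟨hf1, a, h1, h2, fun n x => mem_closedBall_zero_iff.mpr (h3 n x), h4⟩

end Pool.Agent.Results.MP_8da836_an.UnitBallValued
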